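import Mathlib
import Pool.Agent.TH504.VY.Defs
import Pool.Agent.Y91.Sharp.Defs

/-!
# Families of abelian varieties over bases of any dimension with a square zero operator of general rank
-/

set_option autoImplicit false

namespace Pool.Agent.R913.Vhc

open Matrix Module Pool.Agent.H204R3.CM Pool.Agent.H194R3.CM Pool.Agent.W437.HC Pool.Agent.W437.HD
  Pool.Agent.W437.HP Pool.Agent.TH131.GHC Pool.Agent.TH504.VL Pool.Agent.TH504.VY

variable {g d : ℕ}

/-- `r` is the rank of a square zero element of the Lie algebra of the family, or of a derivative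
of the period matrix at a point, or of the difference of two period matrices, or of the image of a
period matrix under a derivation of the complex numbers. -/
def IsRank (U : Set (Fin d → ℂ)) (Z : (Fin d → ℂ) → Matrix (Fin g) (Fin g) ℂ) (r : ℕ) : Prop :=
  (∃ N, Pool.Agent.Y91.Sharp.InLieAlgebra (Z '' U) N ∧ N * N = 0 ∧ N.rank = r) ∨
    (∃ s ∈ U, ∃ u, (ksMap Z s u).rank = r) ∨
    (∃ s ∈ U, ∃ t ∈ U, (Z s - Z t).rank = r) ∨
    ∃ s ∈ U, ∃ δ : Derivation ℚ ℂ ℂ, ((Z s).map δ).rank = r

/-- `r` is the rank of `γ - 1` for a monodromy operator `γ` with `(γ - 1) ^ 2 = 0` (for instance the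
dimension of the toric part of the fibre of the Néron model at a semistable degeneration), or of a
rational square zero element of the Lie algebra of the family. -/
def IsRationalRank (U : Set (Fin d → ℂ)) (Z : (Fin d → ℂ) → Matrix (Fin g) (Fin g) ℂ) (r : ℕ) :
    Prop :=
  (∃ γ, IsMonodromy U Z γ ∧ (γ - 1) * (γ - 1) = 0 ∧ (γ - 1).rank = r) ∨
    ∃ N : Matrix (Fin g ⊕ Fin g) (Fin g ⊕ Fin g) ℚ,
      Pool.Agent.Y91.Sharp.InLieAlgebra (Z '' U) (N.map fun x : ℚ => (x : ℂ)) ∧ N * N = 0 ∧
        N.rank = r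

/-- The symmetric endomorphisms of the family span more than half of the endomorphisms: the
endomorphism algebra of a simple general member is of type I or II in the classification of
Albert. -/
def MostlySymmetric (U : Set (Fin d → ℂ)) (Z : (Fin d → ℂ) → Matrix (Fin g) (Fin g) ℂ) : Prop :=
  finrank ℚ (Submodule.span ℚ {φ | IsEndomorphism U Z φ}) <
    2 * finrank ℚ (Submodule.span ℚ {φ | IsEndomorphism U Z φ ∧
      φ.transpose * fromBlocks 0 1 (-1) 0 = fromBlocks 0 1 (-1) 0 * φ})

/-- Condition (1): the symmetric endomorphisms span more than half of the endomorphisms and there is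
a rational rank `r` different from `0`, `g / 2` and `g` such that `(g, r)` is not exceptional or there
is another rational rank. -/
def HasRationalRank (U : Set (Fin d → ℂ)) (Z : (Fin d → ℂ) → Matrix (Fin g) (Fin g) ℂ) : Prop :=
  MostlySymmetric U Z ∧ ∃ r, IsRationalRank U Z r ∧ 0 < r ∧ 2 * r ≠ g ∧ r ≠ g ∧
    ((∀ e, ¬ Pool.Agent.Y91.Sharp.IsExceptional e g r) ∨
      ∃ r', IsRationalRank U Z r' ∧ 0 < r' ∧ r' ≠ r)

/-- Condition (2): all endomorphisms are rational numbers and there is a rank `r` different from `0`,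
`g / 2` and `g` such that `(g, r)` is not exceptional or there is another rank, and `2 g` does not
divide the product of two of the ranks. -/
def HasRankNoEnd (U : Set (Fin d → ℂ)) (Z : (Fin d → ℂ) → Matrix (Fin g) (Fin g) ℂ) : Prop :=
  (∀ φ, IsEndomorphism U Z φ → ∃ q : ℚ, φ = q • (1 : Matrix (Fin g ⊕ Fin g) (Fin g ⊕ Fin g) ℚ)) ∧
    ∃ r, IsRank U Z r ∧ 0 < r ∧ 2 * r ≠ g ∧ r ≠ g ∧
      (¬ Pool.Agent.Y91.Sharp.IsExceptional 1 g r ∨ ∃ r', IsRank U Z r' ∧ 0 < r' ∧ r' ≠ r) ∧
      ∃ r₁ r₂, IsRank U Z r₁ ∧ IsRank U Z r₂ ∧ ¬ 2 * g ∣ r₁ * r₂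

/-- Condition (3): one of the ranks is odd, or the centre of the endomorphism algebra of the family is
totally real and one of the ranks is two or at some point the rank of the Kodaira-Spencer map is more
than `(g - 1) ^ 2 / 8`. -/
def HasOddRank (U : Set (Fin d → ℂ)) (Z : (Fin d → ℂ) → Matrix (Fin g) (Fin g) ℂ) : Prop :=
  (∃ r, IsRank U Z r ∧ (Odd r ∨ r = 2 ∧ HasRealCentre U Z)) ∨
    (HasRealCentre U Z ∧ ∃ s ∈ U, (g - 1) ^ 2 < 8 * finrank ℂ (LinearMap.range (ksMap Z s)))

/-- `Z` is a holomorphic family of period matrices over `U`, not constant, and it satisfies the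
condition (2), or it has a simple member and satisfies the condition (1) or (3). -/
def IsGoodFamily (U : Set (Fin d → ℂ)) (Z : (Fin d → ℂ) → Matrix (Fin g) (Fin g) ℂ) : Prop :=
  (∀ i j, AnalyticOnNhd ℂ (fun t => Z t i j) U) ∧
  (∀ t ∈ U, (Z t).transpose = Z t ∧ ((Z t).map Complex.im).PosDef) ∧
  (∃ s ∈ U, ∃ t ∈ U, Z s ≠ Z t) ∧
  (HasRankNoEnd U Z ∨ (∃ s ∈ U, IsSimpleAV (Z s)) ∧ (HasRationalRank U Z ∨ HasOddRank U Z))

/-- Through each point `b` of `B` there is a connected complex manifold (an open set `U` of a space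
`ℂ ^ d`, mapped to `B`) along which the Hodge structure of the family `Y` is constant and all the
families `Z i` are good. -/
def VariesRelative {ι B : Type} {g : ι → ℕ} {v : ℕ}
    (Z : ∀ i, B → Matrix (Fin (g i)) (Fin (g i)) ℂ) (Y : B → Coh v) : Prop :=
  ∀ b, ∃ (d : ℕ) (U : Set (Fin d → ℂ)) (φ : (Fin d → ℂ) → B), IsOpen U ∧ IsPreconnected U ∧
    b ∈ φ '' U ∧ (∀ t ∈ U, (Y (φ t)).z = (Y b).z) ∧ ∀ i, IsGoodFamily U (fun t => Z i (φ t))

end Pool.Agent.R913.Vhc
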