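import Mathlib
import Pool.Agent.TH504.VY.Rich
import Pool.Agent.Y91.JP.Fam5
import Pool.Agent.R913.Vhc.Defs

/-!
# Very general members of good families over bases of any dimension
-/

set_option autoImplicit false
set_option linter.unusedSectionVars false

namespace Pool.Agent.R913.Vhc

open Matrix Module Filter Topology Pool.Agent.W437.HC Pool.Agent.W437.HD Pool.Agent.W437.HP
  Pool.Agent.W437.HR Pool.Agent.H204R3.CM Pool.Agent.H194R3.CM Pool.Agent.W548.Odd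
  Pool.Agent.TH125 Pool.Agent.TH504.VL Pool.Agent.TH504.VY

variable {g d : ℕ}

section base

variable {E : Type*} [TopologicalSpace E]

/-- Continuity of the Hodge operator. -/
theorem continuousOn_DZ {U : Set E} {Z : E → Matrix (Fin g) (Fin g) ℂ}
    (hol : ∀ i j, ContinuousOn (fun t => Z t i j) U)
    (hY : ∀ t ∈ U, IsUnit (imM (Z t)).det) : ContinuousOn (fun t => DZ (Z t)) U := by
  have h1 : ContinuousOn (fun t => imM (Z t)) U := by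
    refine continuousOn_pi.2 fun i => continuousOn_pi.2 fun j => ?_
    exact Complex.continuous_im.comp_continuousOn (hol i j)
  have h2 : ContinuousOn (fun t => reM (Z t)) U := by
    refine continuousOn_pi.2 fun i => continuousOn_pi.2 fun j => ?_
    exact Complex.continuous_re.comp_continuousOn (hol i j)
  have h3 : ContinuousOn (fun t => (imM (Z t))⁻¹) U := by
    intro t ht
    have h4 : ContinuousAt Inv.inv (imM (Z t)) := by
      apply continuousAt_matrix_inv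
      rw [Ring.inverse_eq_inv']
      exact continuousAt_inv₀ (hY t ht).ne_zero
    exact ContinuousAt.comp_continuousWithinAt h4 (h1 t ht)
  have h5 : ContinuousOn (fun t => JR (Z t)) U := by
    have e1 : ContinuousOn (fun t => -(reM (Z t) * (imM (Z t))⁻¹)) U := (h2.mul h3).neg
    have e2 : ContinuousOn (fun t => -imM (Z t) - reM (Z t) * (imM (Z t))⁻¹ * reM (Z t)) U :=
      h1.neg.sub ((h2.mul h3).mul h2)
    have e3 : ContinuousOn (fun t => (imM (Z t))⁻¹ * reM (Z t)) U := h3.mul h2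
    refine continuousOn_pi.2 fun i => continuousOn_pi.2 fun j => ?_
    rcases i with i | i <;> rcases j with j | j
    · exact (continuousOn_pi.1 (continuousOn_pi.1 e1 i) j)
    · exact (continuousOn_pi.1 (continuousOn_pi.1 e2 i) j)
    · exact (continuousOn_pi.1 (continuousOn_pi.1 h3 i) j)
    · exact (continuousOn_pi.1 (continuousOn_pi.1 e3 i) j)
  have h6 : ContinuousOn (fun t => (JR (Z t)).map (fun x : ℝ => (x : ℂ))) U := by
    refine continuousOn_pi.2 fun i => continuousOn_pi.2 fun j => ?_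
    exact Complex.continuous_ofReal.comp_continuousOn
      (continuousOn_pi.1 (continuousOn_pi.1 h5 i) j)
  exact h6.const_smul (-Complex.I)

/-- The Hodge operators of a connected family cannot be distributed on two subspaces. -/
theorem conn_family {U : Set E} (hc : IsPreconnected U) {Z : E → Matrix (Fin g) (Fin g) ℂ}
    (hol : ∀ i j, ContinuousOn (fun t => Z t i j) U)
    (hY : ∀ t ∈ U, IsUnit (imM (Z t)).det) : Pool.Agent.Y91.JP.Conn (DZ '' (Z '' U)) := by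
  intro P Q h1 h2
  have hi : IsPreconnected ((fun t => DZ (Z t)) '' U) :=
    hc.image _ (continuousOn_DZ hol hY)
  rw [← Set.image_image DZ Z U] at hi
  rw [isPreconnected_closed_iff] at hi
  by_contra hcon
  push Not at hcon
  obtain ⟨⟨a, ha, haP⟩, b, hb, hbQ⟩ := hcon
  have hPc : IsClosed (P : Set (Matrix (Fin g ⊕ Fin g) (Fin g ⊕ Fin g) ℂ)) :=
    Submodule.closed_of_finiteDimensional P
  have hQc : IsClosed (Q : Set (Matrix (Fin g ⊕ Fin g) (Fin g ⊕ Fin g) ℂ)) :=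
    Submodule.closed_of_finiteDimensional Q
  obtain ⟨c, hc1, hc2, hc3⟩ := hi P Q hPc hQc h1
    ⟨b, hb, (h1 b hb).resolve_right hbQ⟩ ⟨a, ha, (h1 a ha).resolve_left haP⟩
  exact h2 c hc1 ⟨hc2, hc3⟩

end base

variable {U : Set (Fin d → ℂ)} {Z : (Fin d → ℂ) → Matrix (Fin g) (Fin g) ℂ}

/-- The endomorphisms of the family are the rational matrices that commute with the Hodge
operators. -/
theorem endo_iff (hY : ∀ t ∈ U, IsUnit (imM (Z t)).det)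
    (φ : Matrix (Fin g ⊕ Fin g) (Fin g ⊕ Fin g) ℚ) :
    IsEndomorphism U Z φ ↔ φ ∈ Pool.Agent.Y91.JP.EndQ (Z '' U) := by
  constructor
  · rintro h _ ⟨t, ht, rfl⟩
    obtain ⟨M, hM⟩ := h t ht
    exact Pool.Agent.W437.HQ.endo_comm (hY t ht) hM
  · intro h t ht
    exact ⟨_, Pool.Agent.W437.HQ.endo_of_comm (hY t ht) (h _ ⟨t, ht, rfl⟩)⟩

/-- The commutant of a family without endomorphisms. -/
theorem scalar_commutant (hY : ∀ t ∈ U, IsUnit (imM (Z t)).det)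
    (hE : ∀ φ, IsEndomorphism U Z φ → ∃ q : ℚ, φ = q • (1 : Matrix _ _ ℚ)) :
    ∀ c, InCm (DZ '' (Z '' U)) c →
      ∃ s : ℂ, c = s • (1 : Matrix (Fin g ⊕ Fin g) (Fin g ⊕ Fin g) ℂ) := by
  refine Cm_induction ?_ ?_ ?_ ?_
  · intro u hu
    obtain ⟨q, hq⟩ := hE u (by
      intro t ht
      exact ⟨_, Pool.Agent.W437.HQ.endo_of_comm (hY t ht)
        (hu _ (LA_self ⟨Z t, ⟨t, ht, rfl⟩, rfl⟩))⟩)
    refine ⟨(q : ℂ), ?_⟩
    rw [hq]
    ext i j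
    by_cases hij : i = j
    · subst hij
      simp [Pool.Agent.W548.Odd.qm]
    · simp [Pool.Agent.W548.Odd.qm, hij]
  · exact ⟨0, by rw [zero_smul]⟩
  · rintro X Y ⟨s, rfl⟩ ⟨t, rfl⟩
    exact ⟨s + t, by rw [add_smul]⟩
  · rintro c X ⟨s, rfl⟩
    exact ⟨c * s, by rw [mul_smul]⟩

/-- The very general member of a family without endomorphisms is simple. -/
theorem simple_of_end (hW : IsPer (Z '' U))
    (hE : ∀ φ, IsEndomorphism U Z φ → ∃ q : ℚ, φ = q • (1 : Matrix _ _ ℚ))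
    {t : Fin d → ℂ} (ht : t ∈ U) (hVG : ∀ s ∈ U, DZ (Z s) ∈ lieM (DZ (Z t)) ℂ) :
    IsSimpleAV (Z t) := by
  intro W hWs
  have hY : ∀ t ∈ U, IsUnit (imM (Z t)).det := fun t ht =>
    (hW _ ⟨t, ht, rfl⟩).2.isUnit.map Matrix.detMonoidHom
  obtain ⟨hZt, hpos⟩ := hW _ ⟨t, ht, rfl⟩
  rw [stable_iff (hY t ht)] at hWs
  obtain ⟨M, hM1, hM2, hM3⟩ := exists_projector hZt hpos W hWs
  obtain ⟨q, hq⟩ := hE M (by
    intro s hs
    have h3 := Pool.Agent.W437.HQ.comm_lie hZt hM3 (hVG s hs)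
    exact ⟨_, Pool.Agent.W437.HQ.endo_of_comm (hY s hs) h3⟩)
  by_cases h0 : W = ⊥
  · exact Or.inl h0
  right
  obtain ⟨v, hv, hv0⟩ := Submodule.exists_mem_ne_zero_of_ne_bot h0
  have h1 := hM2 v hv
  rw [hq, smul_mulVec, one_mulVec] at h1
  have h2 : q = 1 := by
    have h3 : (q - 1) • v = 0 := by rw [sub_smul, one_smul, h1, sub_self]
    exact sub_eq_zero.1 ((smul_eq_zero.1 h3).resolve_right hv0)
  rw [Submodule.eq_top_iff']
  intro w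
  have h3 := hM1 w
  rw [hq, h2, one_smul, one_mulVec] at h3
  exact h3

theorem lie_iff {P : Set (Matrix (Fin g) (Fin g) ℂ)}
    {X : Matrix (Fin g ⊕ Fin g) (Fin g ⊕ Fin g) ℂ} :
    Pool.Agent.Y91.Sharp.InLieAlgebra P X ↔ X ∈ LA (DZ '' P) := by
  constructor
  · intro h
    exact h (LA (DZ '' P)) (fun Z hZ f => LA_gen (D := DZ '' P) (d := DZ Z) ⟨Z, hZ, rfl⟩ f)
      fun A hA B hB => LA_br hA hB
  · intro h L h1 h2
    refine LA_le (L := L) ⟨?_, h2⟩ h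
    rintro _ ⟨Z, hZ, rfl⟩ f
    exact h1 Z hZ f

theorem rankIn (hU : IsOpen U) (hol : ∀ i j, AnalyticOnNhd ℂ (fun t => Z t i j) U)
    (hW : IsPer (Z '' U)) (hne : U.Nonempty) {r : ℕ} (hr : IsRank U Z r) :
    RankIn (Z '' U) r := by
  rcases hr with ⟨N, hN, hN2, rfl⟩ | ⟨s, hs, u, rfl⟩ | ⟨s, hs, t, ht, rfl⟩ | ⟨s, hs, δ, rfl⟩
  · exact ⟨N, lie_iff.1 hN, hN2, rfl⟩
  · exact rankIn_of_family hU hol hW hne (Or.inr (Or.inl ⟨s, hs, u, rfl⟩))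
  · exact rankIn_points hW ⟨s, hs, rfl⟩ ⟨t, ht, rfl⟩
  · exact Pool.Agent.Y91.JP.rankIn_derivation hW ⟨s, hs, rfl⟩ δ

theorem rational (hne : U.Nonempty) (hW : IsPer (Z '' U)) {r : ℕ} (hr : IsRationalRank U Z r) :
    ∃ N : Matrix (Fin g ⊕ Fin g) (Fin g ⊕ Fin g) ℚ, Pool.Agent.W548.Odd.qm N ∈ LA (DZ '' (Z '' U)) ∧
      N * N = 0 ∧ N.rank = r := by
  rcases hr with ⟨γ, h1, h2, h3⟩ | ⟨N, h1, h2, h3⟩
  · exact ⟨γ - 1, Pool.Agent.TH504.VY.mono_mem hW hne h1 h2, h2, h3⟩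
  · exact ⟨N, lie_iff.1 h1, h2, h3⟩

/-- Rational square zero elements. -/
theorem pcs_rational (hW : IsPer (Z '' U)) (hs : ∃ s ∈ U, IsSimpleAV (Z s))
    (h : HasRationalRank U Z) {t : Fin d → ℂ} (ht : t ∈ U)
    (hvg : ∀ s ∈ U, DZ (Z s) ∈ lieM (DZ (Z t)) ℂ) : HasPcs (DZ (Z t)) := by
  obtain ⟨s, hs, hsimple⟩ := hs
  obtain ⟨hdim, r, hr, hr0, hr1, hr2, hr3⟩ := h
  have hY : ∀ t ∈ U, IsUnit (imM (Z t)).det := fun t ht =>
    (hW _ ⟨t, ht, rfl⟩).2.isUnit.map Matrix.detMonoidHom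
  have e1 : Submodule.span ℚ {φ | IsEndomorphism U Z φ} = Pool.Agent.Y91.JP.EndQ (Z '' U) := by
    apply le_antisymm
    · exact Submodule.span_le.2 fun φ hφ => (endo_iff hY φ).1 hφ
    · exact fun φ hφ => Submodule.subset_span ((endo_iff hY φ).2 hφ)
  have e2 : Submodule.span ℚ {φ | IsEndomorphism U Z φ ∧
      φ.transpose * fromBlocks 0 1 (-1) 0 = fromBlocks 0 1 (-1) 0 * φ} =
      Pool.Agent.Y91.JP.SymQ (Z '' U) := by
    apply le_antisymm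
    · exact Submodule.span_le.2 fun φ hφ => ⟨(endo_iff hY φ).1 hφ.1, hφ.2⟩
    · exact fun φ hφ => Submodule.subset_span ⟨(endo_iff hY φ).2 hφ.1, hφ.2⟩
  unfold MostlySymmetric at hdim
  rw [e1, e2] at hdim
  obtain ⟨N, hN, hN2, rfl⟩ := rational ⟨s, hs⟩ hW hr
  have hN0 : N ≠ 0 := by
    rintro rfl
    rw [Matrix.rank_zero] at hr0
    exact lt_irrefl _ hr0
  obtain ⟨hZt, hpos⟩ := hW _ ⟨t, ht, rfl⟩
  have h3 : LA (DZ '' (Z '' U)) ≤ lieM (DZ (Z t)) ℂ := by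
    refine LA_le_lieM ?_
    rintro _ ⟨_, ⟨s', hs', rfl⟩, rfl⟩
    exact hvg s' hs'
  have h4 : IsSimpleAV (Z t) := simple_of_mem hZt hpos (hW _ ⟨s, hs, rfl⟩).2
    (hvg s hs) hsimple
  refine Pool.Agent.Y91.JP.hasPcs_of_unipotent3 hW ⟨t, ht, rfl⟩ h4 h3 hdim hN hN2 hN0 hr1 hr2 ?_
  rcases hr3 with h5 | ⟨r', h5, h6, h7⟩
  · left
    rintro ⟨j, e, hj, h6, h7⟩
    refine h5 e ⟨j, hj, ?_, ?_⟩
    · rw [h6, Nat.centralBinom, show 2 * (2 * j + 1) = 4 * j + 2 by ring]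
    · rw [h7, Nat.centralBinom, show 2 * (2 * j) = 4 * j by ring]
  · obtain ⟨N', hN', hN'2, rfl⟩ := rational ⟨s, hs⟩ hW h5
    refine Or.inr (Or.inl ⟨N', hN', hN'2, ?_, h7⟩)
    rintro rfl
    rw [Matrix.rank_zero] at h6
    exact lt_irrefl _ h6

/-- Square zero elements, no endomorphisms. -/
theorem pcs_noEnd (hU : IsOpen U) (hc : IsPreconnected U)
    (hol : ∀ i j, AnalyticOnNhd ℂ (fun t => Z t i j) U) (hW : IsPer (Z '' U))
    (h : HasRankNoEnd U Z) {t : Fin d → ℂ} (ht : t ∈ U)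
    (hvg : ∀ s ∈ U, DZ (Z s) ∈ lieM (DZ (Z t)) ℂ) : HasPcs (DZ (Z t)) := by
  obtain ⟨hE, r, hr, h0, h1, h2, h3, r₁, r₂, h4, h5, h6⟩ := h
  have hne : U.Nonempty := ⟨t, ht⟩
  have hY : ∀ t ∈ U, IsUnit (imM (Z t)).det := fun t ht =>
    (hW _ ⟨t, ht, rfl⟩).2.isUnit.map Matrix.detMonoidHom
  have h7 : LA (DZ '' (Z '' U)) ≤ lieM (DZ (Z t)) ℂ := by
    refine LA_le_lieM ?_
    rintro _ ⟨_, ⟨s', hs', rfl⟩, rfl⟩
    exact hvg s' hs'
  refine Pool.Agent.Y91.JP.pcs_of_ranks hW ⟨t, ht, rfl⟩ (simple_of_end hW hE ht hvg) h7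
    (conn_family hc (fun i j => (hol i j).continuousOn) hY) (scalar_commutant hY hE)
    (rankIn hU hol hW hne hr) h0.ne' h1 h2 (rankIn hU hol hW hne h4) (rankIn hU hol hW hne h5)
    h6 ?_
  rcases h3 with h3 | ⟨r', h7, h8, h9⟩
  · left
    intro j hj h7 h8
    refine h3 ⟨j, hj, ?_, ?_⟩
    · rw [h7, Nat.centralBinom, show 2 * (2 * j + 1) = 4 * j + 2 by ring, one_mul]
    · rw [h8, Nat.centralBinom, show 2 * (2 * j) = 4 * j by ring, one_mul]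
  · exact Or.inr ⟨r', rankIn hU hol hW hne h7, h8.ne', h9⟩

/-- Odd ranks and rank two. -/
theorem pcs_odd (hW : IsPer (Z '' U)) (hs : ∃ s ∈ U, IsSimpleAV (Z s)) {r : ℕ}
    (hr : RankIn (Z '' U) r) (hcs : Odd r ∨ (r = 2 ∧ HasRealCentre U Z))
    {t : Fin d → ℂ} (ht : t ∈ U)
    (hvg : ∀ s ∈ U, DZ (Z s) ∈ lieM (DZ (Z t)) ℂ) : HasPcs (DZ (Z t)) := by
  obtain ⟨s, hs, hsimple⟩ := hs
  obtain ⟨N, hN, hN2, hNr⟩ := hr
  have hY : ∀ t ∈ U, IsUnit (imM (Z t)).det := fun t ht =>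
    (hW _ ⟨t, ht, rfl⟩).2.isUnit.map Matrix.detMonoidHom
  obtain ⟨hZt, hpos⟩ := hW _ ⟨t, ht, rfl⟩
  have h1 : LA (DZ '' (Z '' U)) ≤ lieM (DZ (Z t)) ℂ := by
    refine LA_le_lieM ?_
    rintro _ ⟨_, ⟨s', hs', rfl⟩, rfl⟩
    exact hvg s' hs'
  have h2 : IsSimpleAV (Z t) := simple_of_mem hZt hpos (hW _ ⟨s, hs, rfl⟩).2 (hvg s hs) hsimple
  rcases hcs with hodd | ⟨h2r, hreal⟩
  · obtain ⟨e, he, he1⟩ := Pool.Agent.W548.Odd.exists_rank_one hW ⟨s, hs, rfl⟩ hsimple (ε := 1)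
      (N := N) (fun X _ => by rw [one_mul, mul_one]) (one_mul 1)
      (by rw [Matrix.transpose_one, one_mul, mul_one]) (fun c _ => by rw [one_mul, mul_one])
      hN hN2 (by rw [one_mul, hNr]; exact hodd)
    obtain ⟨v, hv, h3⟩ := sq_of_rank_one hZt (h1 he) he1
    exact hasPcs_of_top (Om_transpose ℂ) (Om_unit ℂ) (sp_C hZt)
      (UU_eq_top hZt (hY t ht) h2 ⟨v, good_of_sq_gen hZt hpos hv h3⟩)
  · have hN0 : N ≠ 0 := by
      rintro rfl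
      rw [rank_zero] at hNr
      omega
    refine hasPcs_of_rank hZt hpos h2 ?_ (h1 hN) hN0 (by omega)
    intro φ M hφ hcomm
    have key : ∀ (ψ : Matrix (Fin g ⊕ Fin g) (Fin g ⊕ Fin g) ℚ) (N' : Matrix (Fin g) (Fin g) ℂ),
        Pool.Agent.W437.HQ.IsEndo (Z t) ψ N' → IsEndomorphism U Z ψ := by
      intro ψ N' hψ s' hs'
      have h3 := Pool.Agent.W437.HQ.comm_lie hZt (Pool.Agent.W437.HQ.endo_comm (hY t ht) hψ)
        (hvg s' hs')
      exact ⟨_, Pool.Agent.W437.HQ.endo_of_comm (hY s' hs') h3⟩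
    refine hreal φ (key φ M hφ) fun ψ hψ => ?_
    obtain ⟨N', hN'⟩ := hψ t ht
    exact hcomm ψ N' hN'

/-- **The pieces of very general members** of good families. -/
theorem good_pcs (hU : IsOpen U) (hc : IsPreconnected U) (h : IsGoodFamily U Z) :
    ∃ h : (Fin d → ℂ) → ℂ, AnalyticOnNhd ℂ h U ∧ (∃ s ∈ U, h s ≠ 0) ∧
      ∀ t ∈ U, h t ≠ 0 → (∀ s ∈ U, DZ (Z s) ∈ lieM (DZ (Z t)) ℂ) →
        HasPcs (DZ (Z t)) ∧ IsSimpleAV (Z t) := by
  obtain ⟨hol, hper, ⟨s₀, hs₀, -⟩, hcase⟩ := h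
  have hW : IsPer (Z '' U) := by
    rintro _ ⟨t, ht, rfl⟩
    exact hper t ht
  have one : ∃ h : (Fin d → ℂ) → ℂ, AnalyticOnNhd ℂ h U ∧ (∃ s ∈ U, h s ≠ 0) ∧ ∀ t, h t = 1 :=
    ⟨fun _ => 1, analyticOnNhd_const, ⟨s₀, hs₀, one_ne_zero⟩, fun _ => rfl⟩
  rcases hcase with hn | ⟨⟨s, hs, hsimple⟩, hcase⟩
  · obtain ⟨h, h1, h2, -⟩ := one
    exact ⟨h, h1, h2, fun t ht _ hvg => ⟨pcs_noEnd hU hc hol hW hn ht hvg,
      simple_of_end hW hn.1 ht hvg⟩⟩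
  have hsim : ∀ t ∈ U, (∀ s ∈ U, DZ (Z s) ∈ lieM (DZ (Z t)) ℂ) → IsSimpleAV (Z t) := by
    intro t ht hvg
    obtain ⟨hZt, hpos⟩ := hper t ht
    exact simple_of_mem hZt hpos (hper s hs).2 (hvg s hs) hsimple
  rcases hcase with hr | ⟨r, hr, hcs⟩ | ⟨hreal, hl⟩
  · obtain ⟨h, h1, h2, -⟩ := one
    exact ⟨h, h1, h2, fun t ht _ hvg => ⟨pcs_rational hW ⟨s, hs, hsimple⟩ hr ht hvg,
      hsim t ht hvg⟩⟩
  · obtain ⟨h, h1, h2, -⟩ := one
    exact ⟨h, h1, h2, fun t ht _ hvg => ⟨pcs_odd hW ⟨s, hs, hsimple⟩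
      (rankIn hU hol hW ⟨s, hs⟩ hr) hcs ht hvg, hsim t ht hvg⟩⟩
  · obtain ⟨h, h1, h2, h3⟩ := large_pcs hU ⟨hol, hper, ⟨s, hs, hsimple⟩, hreal, hl⟩
    exact ⟨h, h1, h2, fun t ht h0 hvg => ⟨h3 t ht h0 hvg, hsim t ht hvg⟩⟩

end Pool.Agent.R913.Vhc
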