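import Mathlib
import Pool.Agent.TH504.VY.Main
import Pool.Agent.R913.Vhc.Pcs

/-!
# The variational Hodge conjecture for products of good families and any family
-/

set_option autoImplicit false
set_option linter.unusedSectionVars false

namespace Pool.Agent.R913.Vhc

open Matrix Equiv Module Pool.Agent.H204R3.SP Pool.Agent.H204R3.CM Pool.Agent.H194R3.CM
  Pool.Agent.W437.HC Pool.Agent.W437.HD Pool.Agent.W437.HP Pool.Agent.W437.HR
  Pool.Agent.W548.Odd Pool.Agent.TH125.Small Pool.Agent.TH131.GHC Pool.Agent.TH504.VL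
  Pool.Agent.W546.GHC Pool.Agent.TH504.VY

noncomputable section

section point

variable {d : ℕ} {U : Set (Fin d → ℂ)}

/-- There is a point which is very general for all the families and their product, at which all
families have pieces. -/
theorem exists_point_pcs {ι : Type} [Fintype ι] (hU : IsOpen U)
    (hc : IsPreconnected U) (hne : U.Nonempty) {g : ι → ℕ}
    (Z : ∀ i, (Fin d → ℂ) → Matrix (Fin (g i)) (Fin (g i)) ℂ)
    (hmov : ∀ i, Vhc.IsGoodFamily U (Z i)) :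
    ∃ t₀ ∈ U, (∀ i, HasPcs (DZ (Z i t₀)) ∧ IsSimpleAV (Z i t₀)) ∧
      ∀ s ∈ U, DZ (bigD ℂ (fun i => Z i s)) ∈ lieM (DZ (bigD ℂ (fun i => Z i t₀))) ℂ := by
  classical
  have hYi : ∀ i, ∀ t ∈ U, IsUnit (imM (Z i t)).det := fun i t ht =>
    ((hmov i).2.1 t ht).2.isUnit.map Matrix.detMonoidHom
  have hYb : ∀ t ∈ U, IsUnit (imM (bigD ℂ (fun i => Z i t))).det := fun t ht =>
    (imM_bigD_posDef (fun i => Z i t) fun i => ((hmov i).2.1 t ht).2).isUnit.map
      Matrix.detMonoidHom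
  have hbol : ∀ a b, AnalyticOnNhd ℂ (fun t => bigD ℂ (fun i => Z i t) a b) U := by
    intro a b
    unfold bigD
    simp only [Matrix.sum_apply, Matrix.mul_apply, Matrix.transpose_apply]
    refine Finset.analyticOnNhd_fun_sum _ fun i _ => Finset.analyticOnNhd_fun_sum _ fun x _ => ?_
    refine AnalyticOnNhd.mul ?_ analyticOnNhd_const
    refine Finset.analyticOnNhd_fun_sum _ fun y _ => ?_
    exact AnalyticOnNhd.mul analyticOnNhd_const ((hmov i).1 _ _)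
  choose T hT f hf hfs hft using fun i => vg_functions (Z i) (hmov i).1 (hYi i)
  obtain ⟨T', hT', f', hf', hfs', hft'⟩ := vg_functions (fun t => bigD ℂ (fun i => Z i t)) hbol hYb
  choose h hh hhs hht using fun i => good_pcs hU hc (hmov i)
  have : ∀ i, Countable (T i) := hT
  let F : (Σ i, T i) ⊕ (T' ⊕ ι) → (Fin d → ℂ) → ℂ :=
    Sum.elim (fun p => f p.1 p.2) (Sum.elim f' h)
  obtain ⟨t₀, ht₀, hF⟩ := exists_point hU hc hne F (by
    rintro (p | p | p)
    · exact hf p.1 p.2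
    · exact hf' p
    · exact hh p) (by
    rintro (p | p | p)
    · exact hfs p.1 p.2
    · exact hfs' p
    · exact hhs p)
  refine ⟨t₀, ht₀, fun i => ?_, ?_⟩
  · refine hht i t₀ ht₀ (hF (Sum.inr (Sum.inr i))) ?_
    exact hft i t₀ ht₀ fun p => hF (Sum.inl ⟨i, p⟩)
  · exact hft' t₀ ht₀ fun p => hF (Sum.inr (Sum.inl p))

/-- Good families have very general points. -/
theorem exists_veryGood {n : ℕ} {g : Fin n → ℕ} (hU : IsOpen U) (hc : IsPreconnected U)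
    (hne : U.Nonempty) (Z : ∀ i, (Fin d → ℂ) → Matrix (Fin (g i)) (Fin (g i)) ℂ)
    (hmov : ∀ i, Vhc.IsGoodFamily U (Z i)) : ∃ t₀, VeryGood U Z t₀ := by
  obtain ⟨t₀, ht₀, hp, hb⟩ := exists_point_pcs hU hc hne Z hmov
  refine ⟨t₀, ht₀, fun t ht i => ((hmov i).2.1 t ht).1, fun t ht i => ((hmov i).2.1 t ht).2,
    fun i => (hp i).1, hb, fun i => (hp i).2, fun i => ?_⟩
  by_contra hcon
  push Not at hcon
  obtain ⟨-, -, ⟨s, hs, t, ht, hst⟩, -⟩ := hmov i
  exact hst ((hcon s hs).trans (hcon t ht).symm)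

end point

section base

variable {n : ℕ} {g : Fin n → ℕ} {v : ℕ} {B : Type}
  {Z : ∀ i, B → Matrix (Fin (g i)) (Fin (g i)) ℂ} {Y : B → Coh v}

/-- Each point lies on a leaf with a very general point. -/
def Leafy (Z : ∀ i, B → Matrix (Fin (g i)) (Fin (g i)) ℂ) (Y : B → Coh v) : Prop :=
  ∀ b, ∃ (d : ℕ) (U : Set (Fin d → ℂ)) (φ : (Fin d → ℂ) → B) (t₀ t : Fin d → ℂ),
      VeryGood U (fun i t => Z i (φ t)) t₀ ∧ t ∈ U ∧ φ t = b ∧
      ∀ t ∈ U, (Y (φ t)).z = (Y b).z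

theorem leafy (hmov : VariesRelative Z Y) : Leafy Z Y := by
  intro b
  obtain ⟨d, U, φ, hU, hc, ⟨t, ht, htb⟩, hY, hm⟩ := hmov b
  obtain ⟨t₀, h⟩ := exists_veryGood hU hc ⟨t, ht⟩ (fun i t => Z i (φ t)) hm
  exact ⟨d, U, φ, t₀, t, h, ht, htb, hY⟩

theorem cmp_isH (hmov : Leafy Z Y) {F : HAZ (∀ i, Fin (g i) ⊕ Fin (g i) → ℚ) v}
    (hF : ∀ b, IsHodgeOnProduct (perProd (fun i => Z i b)) (Y b) F) (k : ℕ) (x : Fin v) (b : B) :
    IsH (DZ (bigD ℂ (fun i => Z i b))) (cfE (EE g) (cmp x (F k))) := by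
  obtain ⟨d, U, φ, t₀, t, h, ht, rfl, hY⟩ := hmov b
  refine h.cmp_isH (Y (φ t)) (fun s hs => ?_) k x ht
  obtain ⟨Φ, h1, h2⟩ := hF (φ s)
  exact ⟨Φ, h1, hasType_congr (hY s hs) h2⟩

theorem value_mem (hmov : Leafy Z Y) {F : HAZ (∀ i, Fin (g i) ⊕ Fin (g i) → ℚ) v}
    (hF : ∀ b, IsHodgeOnProduct (perProd (fun i => Z i b)) (Y b) F) (k : ℕ)
    (w : Fin k → (∀ i, Fin (g i) ⊕ Fin (g i) → ℚ)) (b : B) : F k w ∈ HY (Y b) := by
  obtain ⟨d, U, φ, t₀, t, h, ht, rfl, hY⟩ := hmov b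
  refine h.value_mem (Y (φ t)) (fun s hs => ?_) k w
  obtain ⟨Φ, h1, h2⟩ := hF (φ s)
  exact ⟨Φ, h1, hasType_congr (hY s hs) h2⟩

theorem integral_mem (hmov : Leafy Z Y) {F : HAZ (∀ i, Fin (g i) ⊕ Fin (g i) → ℚ) v}
    (hF : ∀ b, IsHodgeOnProduct (perProd (fun i => Z i b)) (Y b) F) {k j : ℕ}
    (e : Basis (Fin k ⊕ Fin j) ℚ (∀ i, Fin (g i) ⊕ Fin (g i) → ℚ))
    (β : (∀ i, Fin (g i) ⊕ Fin (g i) → ℚ) [⋀^Fin j]→ₗ[ℚ] ℚ) (b : B) :
    fibreIntegral e F β ∈ HY (Y b) := by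
  unfold fibreIntegral
  refine Submodule.sum_mem _ fun σ _ => ?_
  have h1 : ∀ (z : ℤ) (x : Fin v → ℚ), x ∈ HY (Y b) → z • x ∈ HY (Y b) := fun z x hx =>
    zsmul_mem hx z
  exact h1 _ _ (Submodule.smul_mem _ _ (value_mem hmov hF k _ b))

/-- **The reproducing property.** -/
theorem mem_of_integrals [Nonempty B] (hmov : Leafy Z Y)
    {F : HAZ (∀ i, Fin (g i) ⊕ Fin (g i) → ℚ) v}
    (hF : ∀ b, IsHodgeOnProduct (perProd (fun i => Z i b)) (Y b) F)
    {P : Submodule ℚ (HAZ (∀ i, Fin (g i) ⊕ Fin (g i) → ℚ) v)}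
    (hP : ∀ (k j : ℕ) (e : Basis (Fin k ⊕ Fin j) ℚ (∀ i, Fin (g i) ⊕ Fin (g i) → ℚ))
      (f : (∀ i, Fin (g i) ⊕ Fin (g i) → ℚ) [⋀^Fin k]→ₗ[ℚ] ℚ)
      (β : (∀ i, Fin (g i) ⊕ Fin (g i) → ℚ) [⋀^Fin j]→ₗ[ℚ] ℚ),
      (∀ b, f ∈ divisorSpan (perProd (fun i => Z i b)) k) →
      (∀ b, β ∈ divisorSpan (perProd (fun i => Z i b)) j) →
        cross f (fibreIntegral e F β) ∈ P) : F ∈ P := by
  classical
  have hper : ∀ b, (∀ i, (Z i b)ᵀ = Z i b) ∧ ∀ i, (imM (Z i b)).PosDef := by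
    intro b
    obtain ⟨d, U, φ, t₀, t, h, ht, rfl, hY⟩ := hmov b
    exact ⟨h.symm t ht, h.pos t ht⟩
  have hspan : ∀ {k : ℕ} (f : (∀ i, Fin (g i) ⊕ Fin (g i) → ℚ) [⋀^Fin k]→ₗ[ℚ] ℚ),
      f ∈ HH (EE g) (fun b => DZ (bigD ℂ (fun i => Z i b))) k →
      ∀ b, f ∈ divisorSpan (perProd (fun i => Z i b)) k := by
    intro k f hf b
    obtain ⟨d, U, φ, t₀, t, h, ht, rfl, hY⟩ := hmov b
    exact h.mem_span (hf (φ t₀)) ht
  obtain ⟨N, hN⟩ : ∃ N, N = Fintype.card (Fin (NB g) ⊕ Fin (NB g)) := ⟨_, rfl⟩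
  have hdim : finrank ℚ (∀ i, Fin (g i) ⊕ Fin (g i) → ℚ) = N := by
    rw [hN]
    exact finrank_eq_card_basis (basisP g)
  have hbig : ∀ k, N < k → F k = 0 := by
    intro k hk
    refine AlternatingMap.ext fun w => ?_
    refine (F k).map_linearDependent w fun hw => ?_
    have h1 := hw.fintype_card_le_finrank
    rw [Fintype.card_fin, hdim] at h1
    omega
  have hsum : F = ∑ k ∈ Finset.range (N + 1),
      (Pi.single k (F k) : HAZ (∀ i, Fin (g i) ⊕ Fin (g i) → ℚ) v) := by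
    funext k
    rw [Finset.sum_apply]
    by_cases hk : k ∈ Finset.range (N + 1)
    · rw [Finset.sum_eq_single k]
      · rw [Pi.single_eq_same]
      · intro l _ hl
        exact Pi.single_eq_of_ne (Ne.symm hl) _
      · intro h0
        exact absurd hk h0
    · rw [Finset.sum_eq_zero]
      · refine hbig k ?_
        rw [Finset.mem_range] at hk
        omega
      · intro l hl
        refine Pi.single_eq_of_ne ?_ _
        rintro rfl
        exact hk hl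
  rw [hsum]
  refine Submodule.sum_mem _ fun k hk => ?_
  rw [Finset.mem_range] at hk
  have hkN : k + (N - k) = Fintype.card (Fin (NB g) ⊕ Fin (NB g)) := by omega
  have hq : Fintype.card (Fin (NB g) ⊕ Fin (NB g)) = Fintype.card (Fin k ⊕ Fin (N - k)) := by
    rw [Fintype.card_sum (α := Fin k), Fintype.card_fin, Fintype.card_fin, hkN]
  let e : Basis (Fin k ⊕ Fin (N - k)) ℚ (∀ i, Fin (g i) ⊕ Fin (g i) → ℚ) :=
    (basisP g).reindex (Fintype.equivOfCardEq hq)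
  refine reproduce (X := B) (EE g)
    (fun b => polOf (bigD_symm (hper b).1) (imM_bigD_posDef _ (hper b).2))
    (fun x y => (polOf_Om _ _).trans (polOf_Om _ _).symm) (fun {κ} _ _ f hf => cfE_inj f hf)
    hkN e F (fun x b => cmp_isH hmov hF k x b) fun f hf β hβ => ?_
  exact hP k _ e f β (hspan f hf) (hspan β hβ)

end base

section final

/-- **The variational Hodge conjecture** for the product of a fibre product of good families of
abelian varieties and a family of varieties. -/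
theorem main {ι B : Type} [Nonempty B] {g : ι → ℕ}
    (Z : ∀ i, B → Matrix (Fin (g i)) (Fin (g i)) ℂ) {n : ℕ} (c : Fin n → ι) {v : ℕ}
    (Y : B → Coh v) (hmov : VariesRelative Z Y) :
    HodgeClassesAreProducts (fibreProduct Z c) Y ∧ VariationalFromY (fibreProduct Z c) Y := by
  have hmov' : Leafy (fun j => Z (c j)) Y := by
    refine leafy fun b => ?_
    obtain ⟨d, U, φ, hU, hc, hb, hY, hm⟩ := hmov b
    exact ⟨d, U, φ, hU, hc, hb, hY, fun j => hm (c j)⟩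
  refine ⟨fun F hF => ?_, fun C hC F hF b₀ hb₀ b => ?_⟩
  · exact mem_of_integrals hmov' hF fun k j e f β hf hβ =>
      Submodule.subset_span ⟨k, f, _, hf, fun b => integral_mem hmov' hF e β b, rfl⟩
  · refine mem_of_integrals hmov' hF fun k j e f β hf hβ => ?_
    refine C.cross_mem b k f (hf b) _ ?_
    refine hC _ (fun b' => integral_mem hmov' hF e β b') b₀ ?_ b
    exact C.integral_mem b₀ F hb₀ k j e β (hβ b₀)

end final

end

end Pool.Agent.R913.Vhc
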